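import Mathlib

open SimpleGraph

namespace Pool.Agent.Results.MP_40785c_co.TreeRadius

universe u
variable {V : Type u} {G : SimpleGraph V}

/-! ### Induced trees -/

/-- the edges of `G` inside `S` -/
def edgesIn (G : SimpleGraph V) (S : Set V) : Set (Sym2 V) := {e | e ∈ G.edgeSet ∧ ∀ x ∈ e, x ∈ S}

lemma card_edges (S : Set V) :
    Nat.card (G.induce S).edgeSet = (edgesIn G S).ncard := by
  have hinj : Function.Injective (Sym2.map (Subtype.val : S → V)) :=
    Sym2.map.injective Subtype.val_injective
  have himg : (Sym2.map (Subtype.val : S → V)) '' (G.induce S).edgeSet = edgesIn G S := by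
    ext e
    induction e using Sym2.ind with
    | _ a b =>
      simp only [Set.mem_image, edgesIn, Set.mem_ofPred_eq, mem_edgeSet]
      constructor
      · rintro ⟨e', he', heq⟩
        induction e' using Sym2.ind with
        | _ c d =>
          simp only [Sym2.map_mk, mem_edgeSet, comap_adj, Function.Embedding.subtype_apply] at he' heq
          have h1 : G.Adj c.1 d.1 := he'
          rcases Sym2.eq_iff.1 heq with ⟨h, h'⟩ | ⟨h, h'⟩
          · subst h; subst h'
            exact ⟨h1, by intro x hx; rcases Sym2.mem_iff.1 hx with rfl | rfl; exacts [c.2, d.2]⟩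
          · subst h; subst h'
            exact ⟨h1.symm, by intro x hx; rcases Sym2.mem_iff.1 hx with rfl | rfl; exacts [d.2, c.2]⟩
      · rintro ⟨hab, hS⟩
        refine ⟨s(⟨a, hS a (Sym2.mem_mk_left a b)⟩, ⟨b, hS b (Sym2.mem_mk_right a b)⟩), ?_, ?_⟩
        · exact hab
        · simp
  rw [← himg, Set.ncard_image_of_injective _ hinj, Nat.card_coe_set_eq]

lemma isTree_insert [DecidableEq V] {S : Finset V} (hS : (G.induce (S : Set V)).IsTree) {v w : V}
    (hv : v ∉ S) (hw : w ∈ S) (hvw : G.Adj v w) (hu : ∀ s ∈ S, G.Adj v s → s = w) :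
    (G.induce ((insert v S : Finset V) : Set V)).IsTree := by
  rw [isTree_iff_connected_and_card] at hS ⊢
  obtain ⟨hc, hcard⟩ := hS
  constructor
  · have h1 : (G.induce ((S : Set V) ∪ {v})).Connected := by
      refine connected_induce_union hc.preconnected ?_ hw (Set.mem_singleton v) hvw.symm
      rintro ⟨a, ha⟩ ⟨b, hb⟩
      rw [Set.mem_singleton_iff] at ha hb
      subst ha; subst hb
      exact Reachable.refl _
    rw [Finset.coe_insert, Set.insert_eq, Set.union_comm]
    exact h1
  · rw [card_edges] at hcard ⊢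
    have hE : edgesIn G ((insert v S : Finset V) : Set V) = insert s(v, w) (edgesIn G (S : Set V)) := by
      ext e
      induction e using Sym2.ind with
      | _ a b =>
        simp only [edgesIn, Set.mem_insert_iff, Set.mem_ofPred_eq, mem_edgeSet, Finset.coe_insert]
        constructor
        · rintro ⟨hab, h⟩
          have ha := h a (Sym2.mem_mk_left a b)
          have hb := h b (Sym2.mem_mk_right a b)
          rcases ha with ha | ha
          · subst ha
            rcases hb with hb | hb
            · subst hb; exact absurd hab (G.loopless.irrefl _)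
            · left; rw [hu b hb hab]
          · rcases hb with hb | hb
            · subst hb
              left; rw [hu a ha hab.symm, Sym2.eq_swap]
            · right
              exact ⟨hab, by intro x hx; rcases Sym2.mem_iff.1 hx with rfl | rfl <;> assumption⟩
        · rintro (h | ⟨hab, h⟩)
          · rcases Sym2.eq_iff.1 h with ⟨rfl, rfl⟩ | ⟨rfl, rfl⟩
            · exact ⟨hvw, by
                intro x hx; rcases Sym2.mem_iff.1 hx with rfl | rfl
                exacts [Or.inl rfl, Or.inr hw]⟩
            · exact ⟨hvw.symm, by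
                intro x hx; rcases Sym2.mem_iff.1 hx with rfl | rfl
                exacts [Or.inr hw, Or.inl rfl]⟩
          · exact ⟨hab, fun x hx => Or.inr (h x hx)⟩
    have hnot : s(v, w) ∉ edgesIn G (S : Set V) := fun h => hv (h.2 v (Sym2.mem_mk_left v w))
    have hfin : (edgesIn G (S : Set V)).Finite := by
      refine Set.Finite.subset ((S ×ˢ S).finite_toSet.image (fun p : V × V => s(p.1, p.2))) ?_
      intro e he
      induction e using Sym2.ind with
      | _ a b =>
        refine ⟨(a, b), ?_, rfl⟩
        simp only [Finset.coe_product, Set.mem_prod, Finset.mem_coe]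
        exact ⟨he.2 a (Sym2.mem_mk_left a b), he.2 b (Sym2.mem_mk_right a b)⟩
    rw [hE, Set.ncard_insert_of_notMem hnot hfin, hcard]
    simp only [Nat.card_eq_fintype_card, Finset.coe_sort_coe, Fintype.card_coe]
    rw [Finset.card_insert_of_notMem hv]

lemma isTree_singleton (v : V) : (G.induce (({v} : Finset V) : Set V)).IsTree := by
  have : Subsingleton ↑(({v} : Finset V) : Set V) := by
    constructor
    rintro ⟨a, ha⟩ ⟨b, hb⟩
    simp only [Finset.coe_singleton, Set.mem_singleton_iff] at ha hb
    subst ha; subst hb; rfl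
  have : Nonempty ↑(({v} : Finset V) : Set V) := ⟨⟨v, by simp⟩⟩
  exact IsTree.of_subsingleton

/-- `f` restricted to `[a,b]` is an induced path -/
def IndPath (G : SimpleGraph V) (f : ℕ → V) (a b : ℕ) : Prop :=
  ∀ i j, a ≤ i → i ≤ b → a ≤ j → j ≤ b →
    (f i = f j → i = j) ∧ (G.Adj (f i) (f j) ↔ (i = j + 1 ∨ j = i + 1))

lemma IndPath.mono {f : ℕ → V} {a b a' b' : ℕ} (h : IndPath G f a b) (ha : a ≤ a')
    (hb : b' ≤ b) : IndPath G f a' b' :=
  fun i j h1 h2 h3 h4 => h i j (by omega) (by omega) (by omega) (by omega)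

/-- attach an induced path to an induced tree along one edge -/
lemma attach [DecidableEq V] {S : Finset V} (hS : (G.induce (S : Set V)).IsTree) {y : V}
    (hy : y ∈ S) (f : ℕ → V) {a n b : ℕ} (han : a ≤ n) (hnb : n ≤ b)
    (hf : IndPath G f a b) (hnS : ∀ j, a ≤ j → j ≤ b → f j ∉ S)
    (hadj : ∀ j, a ≤ j → j ≤ b → ∀ s ∈ S, (G.Adj (f j) s ↔ (j = n ∧ s = y))) :
    (G.induce ((S ∪ (Finset.Icc a b).image f : Finset V) : Set V)).IsTree ∧
      (S ∪ (Finset.Icc a b).image f).card = S.card + (b - a + 1) := by
  have key : ∀ m c d, d - c = m → a ≤ c → c ≤ n → n ≤ d → d ≤ b →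
      (G.induce ((S ∪ (Finset.Icc c d).image f : Finset V) : Set V)).IsTree ∧
      (S ∪ (Finset.Icc c d).image f).card = S.card + (d - c + 1) := by
    intro m
    induction m with
    | zero =>
      intro c d hm hac hcn hnd hdb
      have hc : c = n := by omega
      have hd : d = n := by omega
      subst hc; subst hd
      have h1 : (S ∪ (Finset.Icc d d).image f) = insert (f d) S := by
        rw [Finset.Icc_self, Finset.image_singleton, Finset.union_comm, Finset.insert_eq]
      rw [h1]
      refine ⟨isTree_insert hS (hnS d hac hdb) hy ((hadj d hac hdb y hy).2 ⟨rfl, rfl⟩) ?_, ?_⟩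
      · intro s hs h
        exact ((hadj d hac hdb s hs).1 h).2
      · rw [Finset.card_insert_of_notMem (hnS d hac hdb)]; omega
    | succ m ih =>
      intro c d hm hac hcn hnd hdb
      by_cases hdn : n < d
      · obtain ⟨h1, h2⟩ := ih c (d - 1) (by omega) hac hcn (by omega) (by omega)
        have hnot : f d ∉ S ∪ (Finset.Icc c (d - 1)).image f := by
          rw [Finset.mem_union, Finset.mem_image]
          rintro (h | ⟨j, hj, hjd⟩)
          · exact hnS d (by omega) hdb h
          · rw [Finset.mem_Icc] at hj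
            have := (hf j d (by omega) (by omega) (by omega) hdb).1 hjd
            omega
        have h3 : (S ∪ (Finset.Icc c d).image f)
            = insert (f d) (S ∪ (Finset.Icc c (d - 1)).image f) := by
          have : Finset.Icc c d = insert d (Finset.Icc c (d - 1)) := by
            ext j; simp only [Finset.mem_insert, Finset.mem_Icc]; omega
          rw [this, Finset.image_insert, Finset.union_insert]
        rw [h3]
        refine ⟨isTree_insert h1 hnot (w := f (d - 1)) ?_ ?_ ?_, ?_⟩
        · rw [Finset.mem_union, Finset.mem_image]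
          exact Or.inr ⟨d - 1, by rw [Finset.mem_Icc]; omega, rfl⟩
        · exact (hf d (d - 1) (by omega) hdb (by omega) (by omega)).2.2 (Or.inl (by omega))
        · intro s hs h
          rw [Finset.mem_union, Finset.mem_image] at hs
          rcases hs with hs | ⟨j, hj, rfl⟩
          · have := ((hadj d (by omega) hdb s hs).1 h).1
            omega
          · rw [Finset.mem_Icc] at hj
            have := (hf d j (by omega) hdb (by omega) (by omega)).2.1 h
            have : j = d - 1 := by omega
            rw [this]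
        · rw [Finset.card_insert_of_notMem hnot, h2]; omega
      · have hd : d = n := by omega
        obtain ⟨h1, h2⟩ := ih (c + 1) d (by omega) (by omega) (by omega) hnd hdb
        have hnot : f c ∉ S ∪ (Finset.Icc (c + 1) d).image f := by
          rw [Finset.mem_union, Finset.mem_image]
          rintro (h | ⟨j, hj, hjd⟩)
          · exact hnS c hac (by omega) h
          · rw [Finset.mem_Icc] at hj
            have := (hf j c (by omega) (by omega) (by omega) (by omega)).1 hjd
            omega
        have h3 : (S ∪ (Finset.Icc c d).image f)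
            = insert (f c) (S ∪ (Finset.Icc (c + 1) d).image f) := by
          have : Finset.Icc c d = insert c (Finset.Icc (c + 1) d) := by
            ext j; simp only [Finset.mem_insert, Finset.mem_Icc]; omega
          rw [this, Finset.image_insert, Finset.union_insert]
        rw [h3]
        refine ⟨isTree_insert h1 hnot (w := f (c + 1)) ?_ ?_ ?_, ?_⟩
        · rw [Finset.mem_union, Finset.mem_image]
          exact Or.inr ⟨c + 1, by rw [Finset.mem_Icc]; omega, rfl⟩
        · exact (hf c (c + 1) (by omega) (by omega) (by omega) (by omega)).2.2 (Or.inr rfl)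
        · intro s hs h
          rw [Finset.mem_union, Finset.mem_image] at hs
          rcases hs with hs | ⟨j, hj, rfl⟩
          · have := ((hadj c hac (by omega) s hs).1 h).1
            omega
          · rw [Finset.mem_Icc] at hj
            have := (hf c j (by omega) (by omega) (by omega) (by omega)).2.1 h
            have : j = c + 1 := by omega
            rw [this]
        · rw [Finset.card_insert_of_notMem hnot, h2]; omega
  exact key _ a b rfl le_rfl han hnb le_rfl

/-- there is an induced tree with at least `m` vertices -/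
def HasTree (G : SimpleGraph V) (m : ℕ) : Prop :=
  ∃ S : Finset V, (G.induce (S : Set V)).IsTree ∧ m ≤ S.card

/-! ### Geodesics -/

lemma geod0 (hG : G.Connected) (c w : V) : ∃ p : ℕ → V, p 0 = c ∧ p (G.dist c w) = w ∧
    (∀ i ≤ G.dist c w, G.dist c (p i) = i ∧ G.dist (p i) w = G.dist c w - i) ∧
    ∀ i < G.dist c w, G.Adj (p i) (p (i + 1)) := by
  obtain ⟨W, hW⟩ := hG.exists_walk_length_eq_dist c w
  refine ⟨W.getVert, W.getVert_zero, by rw [← hW]; exact W.getVert_length, ?_, ?_⟩
  · intro i hi
    have h1 : G.dist c (W.getVert i) ≤ i := by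
      have := dist_le (W.take i)
      rw [Walk.take_length] at this
      omega
    have h2 : G.dist (W.getVert i) w ≤ W.length - i := by
      have := dist_le (W.drop i)
      rw [Walk.drop_length] at this
      exact this
    have h3 := hG.dist_triangle (u := c) (v := W.getVert i) (w := w)
    omega
  · intro i hi
    exact W.adj_getVert_succ (by omega)

lemma adj_dist (hG : G.Connected) (c : V) {v w : V} (h : G.Adj v w) :
    G.dist c v ≤ G.dist c w + 1 ∧ G.dist c w ≤ G.dist c v + 1 := by
  have h1 := hG.dist_triangle (u := c) (v := w) (w := v)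
  have h2 := hG.dist_triangle (u := c) (v := v) (w := w)
  have h3 : G.dist v w = 1 := dist_eq_one_iff_adj.2 h
  have h4 : G.dist w v = 1 := dist_eq_one_iff_adj.2 h.symm
  omega

/-- geodesic data with prescribed first step -/
lemma geod1 (hG : G.Connected) (c a w : V) (hca : G.Adj c a) (h : G.dist c w = G.dist a w + 1) :
    ∃ p : ℕ → V, p 0 = c ∧ p 1 = a ∧ p (G.dist c w) = w ∧
    (∀ i ≤ G.dist c w, G.dist c (p i) = i ∧ G.dist (p i) w = G.dist c w - i) ∧
    (∀ i < G.dist c w, G.Adj (p i) (p (i + 1))) ∧
    (∀ i, 1 ≤ i → i ≤ G.dist c w → G.dist a (p i) = i - 1) := by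
  obtain ⟨p, hp0, hpd, hp1, hp2⟩ := geod0 hG a w
  refine ⟨fun i => if i = 0 then c else p (i - 1), by simp, by simp [hp0], ?_, ?_, ?_, ?_⟩
  · have : G.dist c w ≠ 0 := by omega
    simp [h, hpd]
  · intro i hi
    by_cases h0 : i = 0
    · subst h0; simp
    · simp only [h0, if_false]
      obtain ⟨h1, h2⟩ := hp1 (i - 1) (by omega)
      have h3 := hG.dist_triangle (u := c) (v := p (i - 1)) (w := w)
      have h4 := hG.dist_triangle (u := c) (v := a) (w := p (i - 1))
      have h5 : G.dist c a = 1 := dist_eq_one_iff_adj.2 hca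
      omega
  · intro i hi
    by_cases h0 : i = 0
    · subst h0; simp [hp0, hca]
    · simp only [h0, if_false, Nat.add_eq_zero_iff, one_ne_zero, and_false]
      have := hp2 (i - 1) (by omega)
      rwa [show i - 1 + 1 = i + 1 - 1 by omega] at this
  · intro i h1 hi
    have h0 : i ≠ 0 := by omega
    simp only [h0, if_false]
    exact (hp1 (i - 1) (by omega)).1

lemma indPath_of_levels (hG : G.Connected) (c : V) (p : ℕ → V) (a b : ℕ)
    (h1 : ∀ i, a ≤ i → i ≤ b → G.dist c (p i) = i)
    (h2 : ∀ i, a ≤ i → i < b → G.Adj (p i) (p (i + 1))) : IndPath G p a b := by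
  intro i j hai hib haj hjb
  have e1 := h1 i hai hib
  have e2 := h1 j haj hjb
  refine ⟨fun h => by rw [← e1, ← e2, h], fun h => ?_, ?_⟩
  · have := adj_dist hG c h
    rw [e1, e2] at this
    have hne : i ≠ j := by
      rintro rfl
      exact G.loopless.irrefl _ h
    omega
  · rintro (rfl | rfl)
    · exact (h2 j haj (by omega)).symm
    · exact h2 i hai (by omega)

/-- a shortest path from `x` to the neighbourhood of `T` -/
lemma approach (hG : G.Connected) (T : Set V) (x : V) (hx : x ∉ T) (hT : T.Nonempty) :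
    ∃ (g : ℕ → V) (k : ℕ), g k = x ∧ IndPath G g 0 k ∧ (∀ j ≤ k, g j ∉ T) ∧
      (∃ t ∈ T, G.Adj (g 0) t) ∧ (∀ j, 1 ≤ j → j ≤ k → ∀ t ∈ T, ¬ G.Adj (g j) t) ∧
      k = G.dist (g 0) x := by
  classical
  let Z : Set V := {v | v ∉ T ∧ ∃ t ∈ T, G.Adj v t}
  -- Z is nonempty
  have hZ : Z.Nonempty := by
    obtain ⟨t, ht⟩ := hT
    obtain ⟨p, hp0, hpd, _, hp2⟩ := geod0 hG x t
    by_contra hcon
    have hall : ∀ i ≤ G.dist x t, p i ∉ T := by
      intro i
      induction i with
      | zero => intro _; rw [hp0]; exact hx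
      | succ i ih =>
        intro hi h
        exact hcon ⟨p i, ih (by omega), p (i + 1), h, hp2 i (by omega)⟩
    exact hall _ le_rfl (by rw [hpd]; exact ht)
  -- choose y in Z closest to x
  obtain ⟨y, hyZ, hymin⟩ : ∃ y ∈ Z, ∀ z ∈ Z, G.dist y x ≤ G.dist z x := by
    let f : V → ℕ := fun z => G.dist z x
    obtain ⟨m, hm⟩ : ∃ m, m ∈ f '' Z ∧ ∀ n ∈ f '' Z, m ≤ n := by
      have hne : (f '' Z).Nonempty := hZ.image f
      exact ⟨sInf (f '' Z), Nat.sInf_mem hne, fun n hn => Nat.sInf_le hn⟩
    obtain ⟨⟨y, hy, rfl⟩, hmin⟩ := hm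
    exact ⟨y, hy, fun z hz => hmin _ ⟨z, hz, rfl⟩⟩
  obtain ⟨p, hp0, hpd, hp1, hp2⟩ := geod0 hG y x
  have hnotZ : ∀ j, 1 ≤ j → j ≤ G.dist y x → p j ∉ Z := by
    intro j h1 hj hz
    have := hymin _ hz
    have := (hp1 j hj).2
    omega
  have hnotT : ∀ j ≤ G.dist y x, p j ∉ T := by
    -- descending induction
    have : ∀ m, ∀ j, j + m = G.dist y x → p j ∉ T := by
      intro m
      induction m with
      | zero =>
        intro j hj
        rw [show j = G.dist y x by omega, hpd]
        exact hx
      | succ m ih =>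
        intro j hj h
        exact hnotZ (j + 1) (by omega) (by omega)
          ⟨ih (j + 1) (by omega), p j, h, (hp2 j (by omega)).symm⟩
    intro j hj
    exact this (G.dist y x - j) j (by omega)
  refine ⟨p, G.dist y x, hpd, indPath_of_levels hG y p 0 _ (fun i _ hi => (hp1 i hi).1)
    (fun i _ hi => hp2 i hi), hnotT, by rw [hp0]; exact hyZ.2, ?_, by rw [hp0]⟩
  intro j h1 hj t ht hadj
  exact hnotZ j h1 hj ⟨hnotT j hj, t, ht, hadj⟩

/-! ### Trees made of an approach path and one or two arcs -/

structure App (G : SimpleGraph V) (T : Set V) (g : ℕ → V) (k : ℕ) : Prop where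
  ind : IndPath G g 0 k
  notin : ∀ j ≤ k, g j ∉ T
  nonadj : ∀ j, 1 ≤ j → j ≤ k → ∀ t ∈ T, ¬ G.Adj (g j) t

lemma yTree [DecidableEq V] {g : ℕ → V} {k : ℕ} (hg : IndPath G g 0 k) :
    (G.induce (((Finset.Icc 0 k).image g : Finset V) : Set V)).IsTree ∧
      ((Finset.Icc 0 k).image g).card = k + 1 := by
  by_cases hk : k = 0
  · subst hk
    rw [Finset.Icc_self, Finset.image_singleton]
    exact ⟨isTree_singleton _, by simp⟩
  · have hk1 : 1 ≤ k := by omega
    have h := attach (G := G) (isTree_singleton (g 0)) (y := g 0) (by simp) g (a := 1) (n := 1)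
      (b := k) le_rfl hk1 (hg.mono (by omega) le_rfl) ?_ ?_
    · have h1 : ({g 0} : Finset V) ∪ (Finset.Icc 1 k).image g = (Finset.Icc 0 k).image g := by
        have : Finset.Icc 0 k = insert 0 (Finset.Icc 1 k) := by
          ext j; simp only [Finset.mem_insert, Finset.mem_Icc]; omega
        rw [this, Finset.image_insert, Finset.insert_eq]
      rw [h1] at h
      exact ⟨h.1, by rw [h.2, Finset.card_singleton]; omega⟩
    · intro j h1 h2 hmem
      rw [Finset.mem_singleton] at hmem
      have := (hg j 0 (by omega) h2 (by omega) (by omega)).1 hmem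
      omega
    · intro j h1 h2 s hs
      rw [Finset.mem_singleton] at hs
      subst hs
      rw [(hg j 0 (by omega) h2 (by omega) (by omega)).2]
      constructor
      · intro h; exact ⟨by omega, rfl⟩
      · rintro ⟨rfl, _⟩; omega

lemma oneArc' [DecidableEq V] {T : Set V} {g : ℕ → V} {k : ℕ} (hA : App G T g k) (h : ℕ → V)
    {a n b : ℕ} (han : a ≤ n) (hnb : n ≤ b) (hh : IndPath G h a b)
    (hT : ∀ j, a ≤ j → j ≤ b → h j ∈ T)
    (hu : ∀ j, a ≤ j → j ≤ b → (G.Adj (g 0) (h j) ↔ j = n)) :
    (G.induce (((Finset.Icc 0 k).image g ∪ (Finset.Icc a b).image h : Finset V) : Set V)).IsTree ∧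
    ((Finset.Icc 0 k).image g ∪ (Finset.Icc a b).image h).card = k + 1 + (b - a + 1) := by
  obtain ⟨hY1, hY2⟩ := yTree (G := G) hA.ind
  have h1 := attach (G := G) hY1 (y := g 0)
    (Finset.mem_image.2 ⟨0, by simp, rfl⟩) h han hnb hh ?_ ?_
  · exact ⟨h1.1, by rw [h1.2, hY2]⟩
  · intro j h1 h2 hmem
    rw [Finset.mem_image] at hmem
    obtain ⟨i, hi, hij⟩ := hmem
    rw [Finset.mem_Icc] at hi
    exact hA.notin i hi.2 (hij ▸ hT j h1 h2)
  · intro j h1 h2 s hs
    rw [Finset.mem_image] at hs
    obtain ⟨i, hi, rfl⟩ := hs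
    rw [Finset.mem_Icc] at hi
    by_cases h0 : i = 0
    · subst h0
      rw [G.adj_comm, hu j h1 h2]
      simp
    · constructor
      · intro h3
        exact absurd h3.symm (hA.nonadj i (by omega) hi.2 _ (hT j h1 h2))
      · rintro ⟨_, h3⟩
        exact absurd ((hA.ind i 0 (by omega) hi.2 (by omega) (by omega)).1 h3) h0

lemma oneArc {T : Set V} {g : ℕ → V} {k : ℕ} (hA : App G T g k) (h : ℕ → V)
    {a n b M : ℕ} (han : a ≤ n) (hnb : n ≤ b) (hh : IndPath G h a b)
    (hT : ∀ j, a ≤ j → j ≤ b → h j ∈ T)
    (hu : ∀ j, a ≤ j → j ≤ b → (G.Adj (g 0) (h j) ↔ j = n)) (hM : M ≤ k + 1 + (b - a + 1)) :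
    HasTree G M := by
  classical
  obtain ⟨h1, h2⟩ := oneArc' hA h han hnb hh hT hu
  exact ⟨_, h1, by rw [h2]; exact hM⟩

lemma twoArc {T : Set V} {g : ℕ → V} {k : ℕ} (hA : App G T g k) (h : ℕ → V)
    {a₁ n₁ b₁ a₂ n₂ b₂ M : ℕ} (han₁ : a₁ ≤ n₁) (hnb₁ : n₁ ≤ b₁) (han₂ : a₂ ≤ n₂) (hnb₂ : n₂ ≤ b₂)
    (hgap : b₁ + 2 ≤ a₂) (hh : IndPath G h a₁ b₂)
    (hT : ∀ j, a₁ ≤ j → j ≤ b₂ → h j ∈ T)
    (hu₁ : ∀ j, a₁ ≤ j → j ≤ b₁ → (G.Adj (g 0) (h j) ↔ j = n₁))
    (hu₂ : ∀ j, a₂ ≤ j → j ≤ b₂ → (G.Adj (g 0) (h j) ↔ j = n₂))
    (hM : M ≤ k + 1 + (b₁ - a₁ + 1) + (b₂ - a₂ + 1)) :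
    HasTree G M := by
  classical
  obtain ⟨h1, h2⟩ := oneArc' hA h han₁ hnb₁ (hh.mono le_rfl (by omega))
    (fun j h1 h2 => hT j h1 (by omega)) hu₁
  have h3 := attach (G := G) h1 (y := g 0)
    (Finset.mem_union_left _ (Finset.mem_image.2 ⟨0, by simp, rfl⟩)) h han₂ hnb₂
    (hh.mono (by omega) le_rfl) ?_ ?_
  · exact ⟨_, h3.1, by rw [h3.2, h2]; exact hM⟩
  · intro j hj1 hj2 hmem
    rw [Finset.mem_union, Finset.mem_image, Finset.mem_image] at hmem
    rcases hmem with ⟨i, hi, hij⟩ | ⟨i, hi, hij⟩
    · rw [Finset.mem_Icc] at hi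
      exact hA.notin i hi.2 (hij ▸ hT j (by omega) hj2)
    · rw [Finset.mem_Icc] at hi
      have := (hh i j (by omega) (by omega) (by omega) hj2).1 hij
      omega
  · intro j hj1 hj2 s hs
    rw [Finset.mem_union, Finset.mem_image, Finset.mem_image] at hs
    rcases hs with ⟨i, hi, rfl⟩ | ⟨i, hi, rfl⟩
    · rw [Finset.mem_Icc] at hi
      by_cases h0 : i = 0
      · subst h0
        rw [G.adj_comm, hu₂ j hj1 hj2]
        simp
      · constructor
        · intro h3
          exact absurd h3.symm (hA.nonadj i (by omega) hi.2 _ (hT j (by omega) hj2))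
        · rintro ⟨_, h3⟩
          exact absurd ((hA.ind i 0 (by omega) hi.2 (by omega) (by omega)).1 h3) h0
    · rw [Finset.mem_Icc] at hi
      constructor
      · intro h3
        have := (hh j i (by omega) hj2 (by omega) (by omega)).2.1 h3
        omega
      · rintro ⟨_, h3⟩
        exact absurd (h3 ▸ hT i (by omega) (by omega)) (hA.notin 0 (by omega))

lemma extremes (M : ℕ) (N : ℕ → Prop) (h : ∃ j ≤ M, N j) :
    ∃ A B, N A ∧ N B ∧ A ≤ B ∧ B ≤ M ∧ (∀ j ≤ M, N j → A ≤ j ∧ j ≤ B) ∧
      ((∀ j, A < j → j < B → ¬ N j) ∨ ∃ m₁ m₂, N m₁ ∧ N m₂ ∧ A < m₁ ∧ m₁ ≤ m₂ ∧ m₂ < B ∧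
        ∀ j, A < j → j < B → N j → m₁ ≤ j ∧ j ≤ m₂) := by
  classical
  have gen : ∀ P : ℕ → Prop, (∃ j ≤ M, P j) → ∃ A B, P A ∧ P B ∧ A ≤ B ∧ B ≤ M ∧
      ∀ j ≤ M, P j → A ≤ j ∧ j ≤ B := by
    intro P hP
    obtain ⟨j0, hj0, hPj0⟩ := hP
    let S := (Finset.range (M + 1)).filter P
    have hne : S.Nonempty := ⟨j0, by simp [S, hPj0]; omega⟩
    have hmem : ∀ j, j ∈ S ↔ j ≤ M ∧ P j := by
      intro j; simp [S, Nat.lt_succ_iff]
    have h1 := (hmem _).1 (S.min'_mem hne)
    have h2 := (hmem _).1 (S.max'_mem hne)
    refine ⟨S.min' hne, S.max' hne, h1.2, h2.2, S.min'_le _ (S.max'_mem hne), h2.1, ?_⟩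
    intro j hj hPj
    exact ⟨S.min'_le _ ((hmem j).2 ⟨hj, hPj⟩), S.le_max' _ ((hmem j).2 ⟨hj, hPj⟩)⟩
  obtain ⟨A, B, hA, hB, hAB, hBM, hall⟩ := gen N h
  refine ⟨A, B, hA, hB, hAB, hBM, hall, ?_⟩
  by_cases hmid : ∃ j ≤ M, A < j ∧ j < B ∧ N j
  · right
    obtain ⟨m₁, m₂, h1, h2, h3, _, h5⟩ := gen (fun j => A < j ∧ j < B ∧ N j) hmid
    exact ⟨m₁, m₂, h1.2.2, h2.2.2, h1.1, h3, h2.2.1, fun j ha hb hn => h5 j (by omega) ⟨ha, hb, hn⟩⟩
  · left
    intro j ha hb hn
    exact hmid ⟨j, by omega, ha, hb, hn⟩

/-- the constraints on the neighbours on the path of a vertex at level `l` -/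
def Cons (N : ℕ → Prop) (m l : ℕ) : Prop :=
  (∀ j ≤ 2 * m, N j → j ≤ m + l + 1 ∧ m ≤ j + l + 1 ∧ (m ≤ j → l + m ≤ j + 1) ∧
    (j ≤ m → l + j ≤ m + 1)) ∧
  ∀ i j, i < m → m < j → j ≤ 2 * m → N i → N j → m + m ≤ i + j ∧ i + j ≤ m + m + 1

lemma pathCase {T : Set V} {g : ℕ → V} {k : ℕ} (hA : App G T g k) (t : ℕ → V) (m l : ℕ)
    (ht : IndPath G t 0 (2 * m)) (htT : ∀ j ≤ 2 * m, t j ∈ T)
    (hN : ∃ j ≤ 2 * m, G.Adj (g 0) (t j)) (hc : Cons (fun j => G.Adj (g 0) (t j)) m l)
    (hk1 : 1 ≤ k) (hk2 : m + 1 ≤ l + k) : HasTree G (2 * m + 2) := by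
  obtain ⟨A, B, hNA, hNB, hAB, hBM, hall, hmid⟩ := extremes (2 * m) (fun j => G.Adj (g 0) (t j)) hN
  obtain ⟨c1, c2⟩ := hc
  beta_reduce at c1 c2
  rcases Nat.lt_trichotomy B (A + 1) with h | h | h
  · have : A = B := by omega
    subst this
    refine oneArc hA t (a := 0) (n := A) (b := 2 * m) (by omega) hBM ht (fun j _ h => htT j h)
      (fun j _ h => ⟨fun hj => ?_, fun hj => hj ▸ hNA⟩) (by omega)
    have := hall j h hj
    omega
  · have cA := c1 A (by omega) hNA
    have cB := c1 B (by omega) hNB
    by_cases hmA : m ≤ A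
    · refine oneArc hA t (a := 0) (n := A) (b := A) (by omega) le_rfl (ht.mono le_rfl (by omega))
        (fun j _ h => htT j (by omega))
        (fun j _ h => ⟨fun hj => ?_, fun hj => hj ▸ hNA⟩) (by omega)
      have := hall j (by omega) hj
      omega
    · refine oneArc hA t (a := B) (n := B) (b := 2 * m) le_rfl hBM (ht.mono (by omega) le_rfl)
        (fun j _ h => htT j (by omega))
        (fun j _ h => ⟨fun hj => ?_, fun hj => hj ▸ hNB⟩) (by omega)
      have := hall j (by omega) hj
      omega
  · rcases hmid with hmid | ⟨m₁, m₂, hm₁, hm₂, h1, h2, h3, hmid⟩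
    · refine twoArc hA t (a₁ := 0) (n₁ := A) (b₁ := A) (a₂ := A + 2) (n₂ := B) (b₂ := 2 * m)
        (by omega) le_rfl (by omega) hBM (by omega) ht (fun j _ h => htT j h)
        (fun j _ h => ⟨fun hj => ?_, fun hj => hj ▸ hNA⟩)
        (fun j h' h => ⟨fun hj => ?_, fun hj => hj ▸ hNB⟩) (by omega)
      · have := hall j (by omega) hj
        omega
      · have := hall j (by omega) hj
        by_contra hne
        exact hmid j (by omega) (by omega) hj
    · have cA := c1 A (by omega) hNA
      have cB := c1 B (by omega) hNB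
      have c3 := c1 m₁ (by omega) hm₁
      have c4 := c1 m₂ (by omega) hm₂
      have d1 := fun h h' => c2 A B h h' hBM hNA hNB
      have d2 := fun h h' => c2 A m₁ h h' (by omega) hNA hm₁
      have d3 := fun h h' => c2 A m₂ h h' (by omega) hNA hm₂
      have d4 := fun h h' => c2 m₁ m₂ h h' (by omega) hm₁ hm₂
      have d5 := fun h h' => c2 m₁ B h h' (by omega) hm₁ hNB
      have d6 := fun h h' => c2 m₂ B h h' (by omega) hm₂ hNB
      have key : m₂ + 1 ≤ k + m₁ := by omega
      refine twoArc hA t (a₁ := 0) (n₁ := A) (b₁ := m₁ - 1) (a₂ := m₂ + 1) (n₂ := B) (b₂ := 2 * m)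
        (by omega) (by omega) (by omega) hBM (by omega) ht (fun j _ h => htT j h)
        (fun j _ h => ⟨fun hj => ?_, fun hj => hj ▸ hNA⟩)
        (fun j h' h => ⟨fun hj => ?_, fun hj => hj ▸ hNB⟩) (by omega)
      · have := hall j (by omega) hj
        by_contra hne
        have := hmid j (by omega) (by omega) hj
        omega
      · have := hall j (by omega) hj
        by_contra hne
        have := hmid j (by omega) (by omega) hj
        omega

/-! ### The cycle case -/

/-- the cycle `t 0, …, t (2m), x` -/
def cyc (t : ℕ → V) (x : V) (m : ℕ) (i : ℕ) : V := if i ≤ 2 * m then t i else x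

/-- the cycle read from position `s` -/
def rot (t : ℕ → V) (x : V) (m s : ℕ) (j : ℕ) : V :=
  cyc t x m (if j + s ≤ 2 * m + 1 then j + s else j + s - (2 * m + 2))

lemma cyc_spec {t : ℕ → V} {x : V} {m : ℕ} (hm : 1 ≤ m) (ht : IndPath G t 0 (2 * m))
    (hx : ∀ j ≤ 2 * m, t j ≠ x) (hxa : ∀ j ≤ 2 * m, (G.Adj x (t j) ↔ (j = 0 ∨ j = 2 * m)))
    (a b : ℕ) (ha : a ≤ 2 * m + 1) (hb : b ≤ 2 * m + 1) :
    (cyc t x m a = cyc t x m b → a = b) ∧
      (G.Adj (cyc t x m a) (cyc t x m b) ↔
        (a = b + 1 ∨ b = a + 1 ∨ (a = 0 ∧ b = 2 * m + 1) ∨ (b = 0 ∧ a = 2 * m + 1))) := by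
  unfold cyc
  by_cases h1 : a ≤ 2 * m <;> by_cases h2 : b ≤ 2 * m
  · rw [if_pos h1, if_pos h2]
    obtain ⟨e1, e2⟩ := ht a b (by omega) h1 (by omega) h2
    refine ⟨e1, ?_⟩
    rw [e2]; omega
  · rw [if_pos h1, if_neg h2]
    refine ⟨fun h => absurd h (hx a h1), ?_⟩
    rw [G.adj_comm, hxa a h1]; omega
  · rw [if_neg h1, if_pos h2]
    refine ⟨fun h => absurd h.symm (hx b h2), ?_⟩
    rw [hxa b h2]; omega
  · rw [if_neg h1, if_neg h2]
    refine ⟨fun _ => by omega, ?_⟩
    constructor
    · intro h; exact absurd h (G.loopless.irrefl _)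
    · intro h; omega

lemma rot_indPath {t : ℕ → V} {x : V} {m : ℕ} (hm : 1 ≤ m) (ht : IndPath G t 0 (2 * m))
    (hx : ∀ j ≤ 2 * m, t j ≠ x) (hxa : ∀ j ≤ 2 * m, (G.Adj x (t j) ↔ (j = 0 ∨ j = 2 * m)))
    (s : ℕ) (hs : s ≤ 2 * m + 1) : IndPath G (rot t x m s) 0 (2 * m) := by
  intro i j _ hi _ hj
  unfold rot
  have gen : ∀ a b, a ≤ 2 * m + 1 → b ≤ 2 * m + 1 → (a = i + s ∨ a + (2 * m + 2) = i + s) →
      (b = j + s ∨ b + (2 * m + 2) = j + s) →
      (cyc t x m a = cyc t x m b → i = j) ∧
      (G.Adj (cyc t x m a) (cyc t x m b) ↔ (i = j + 1 ∨ j = i + 1)) := by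
    intro a b ha hb ha' hb'
    obtain ⟨e1, e2⟩ := cyc_spec hm ht hx hxa a b ha hb
    refine ⟨fun h => ?_, ?_⟩
    · have := e1 h; omega
    · rw [e2]; omega
  by_cases h1 : i + s ≤ 2 * m + 1
  · by_cases h2 : j + s ≤ 2 * m + 1
    · rw [if_pos h1, if_pos h2]
      exact gen _ _ h1 h2 (Or.inl rfl) (Or.inl rfl)
    · rw [if_pos h1, if_neg h2]
      exact gen _ _ h1 (by omega) (Or.inl rfl) (Or.inr (by omega))
  · by_cases h2 : j + s ≤ 2 * m + 1
    · rw [if_neg h1, if_pos h2]
      exact gen _ _ (by omega) h2 (Or.inr (by omega)) (Or.inl rfl)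
    · rw [if_neg h1, if_neg h2]
      exact gen _ _ (by omega) (by omega) (Or.inr (by omega)) (Or.inr (by omega))

lemma cycleCase {T : Set V} {g : ℕ → V} {k : ℕ} (hA : App G T g k) (t : ℕ → V) (x : V) (m l : ℕ)
    (hm : 1 ≤ m) (ht : IndPath G t 0 (2 * m)) (htT : ∀ j ≤ 2 * m, t j ∈ T) (hxT : x ∈ T)
    (hx : ∀ j ≤ 2 * m, t j ≠ x) (hxa : ∀ j ≤ 2 * m, (G.Adj x (t j) ↔ (j = 0 ∨ j = 2 * m)))
    (hN : ∃ j ≤ 2 * m + 1, G.Adj (g 0) (cyc t x m j))
    (hc : Cons (fun j => G.Adj (g 0) (t j)) m l)
    (hxl : G.Adj (g 0) x → m ≤ l)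
    (hk : 1 ≤ k ∨ ∀ i j, i ≤ 2 * m + 1 → j ≤ 2 * m + 1 → G.Adj (g 0) (cyc t x m i) →
      G.Adj (g 0) (cyc t x m j) → i = j) : HasTree G (2 * m + 2) := by
  have hcT : ∀ j, cyc t x m j ∈ T := by
    intro j; unfold cyc; split_ifs with h
    exacts [htT j h, hxT]
  have hrT : ∀ s j, rot t x m s j ∈ T := fun s j => hcT _
  have hrp := fun s hs => rot_indPath hm ht hx hxa s hs
  have hcx : cyc t x m (2 * m + 1) = x := by unfold cyc; rw [if_neg (by omega)]
  have hct : ∀ j ≤ 2 * m, cyc t x m j = t j := fun j hj => by unfold cyc; rw [if_pos hj]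
  -- neighbourhood predicate
  set N : ℕ → Prop := fun j => G.Adj (g 0) (cyc t x m j) with hNdef
  have hr1 : ∀ s j, j + s ≤ 2 * m + 1 → (G.Adj (g 0) (rot t x m s j) ↔ N (j + s)) := by
    intro s j h; unfold rot; rw [if_pos h]
  have hr2 : ∀ s j, ¬ (j + s ≤ 2 * m + 1) →
      (G.Adj (g 0) (rot t x m s j) ↔ N (j + s - (2 * m + 2))) := by
    intro s j h; unfold rot; rw [if_neg h]
  obtain ⟨c1, c2⟩ := hc
  beta_reduce at c1 c2
  have c1' : ∀ j ≤ 2 * m, N j → j ≤ m + l + 1 ∧ m ≤ j + l + 1 ∧ (m ≤ j → l + m ≤ j + 1) ∧
    (j ≤ m → l + j ≤ m + 1) := fun j hj h => c1 j hj (by rw [← hct j hj]; exact h)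
  have c2' : ∀ i j, i < m → m < j → j ≤ 2 * m → N i → N j → m + m ≤ i + j ∧ i + j ≤ m + m + 1 :=
    fun i j hi hj hj2 h1 h2 => c2 i j hi hj hj2 (by rw [← hct i (by omega)]; exact h1)
      (by rw [← hct j hj2]; exact h2)
  by_cases hT : ∃ i ≤ 2 * m, N i
  · obtain ⟨A, B, hNA, hNB, hAB, hBM, hall, hmid⟩ := extremes (2 * m) N hT
    by_cases hxN : N (2 * m + 1)
    · have hml : m ≤ l := hxl (by rw [← hcx]; exact hxN)
      rcases Nat.lt_trichotomy B (A + 1) with h | h | h
      · -- one neighbour on the path: drop `x`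
        have hAB' : A = B := by omega
        subst hAB'
        refine oneArc hA (rot t x m 0) (a := 0) (n := A) (b := 2 * m) (by omega) hBM
          (hrp 0 (by omega)) (fun j _ _ => hrT 0 j) (fun j _ hj => ?_) (by omega)
        rw [hr1 0 j (by omega)]
        constructor
        · intro h'; have := hall (j + 0) (by omega) h'; omega
        · rintro rfl; exact hNA
      · have hk1 : 1 ≤ k := by
          rcases hk with hk | hk
          · exact hk
          · have := hk A B (by omega) (by omega) hNA hNB; omega
        by_cases hA0 : A = 0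
        · have hB1 : B = 1 := by omega
          subst hA0; subst hB1
          refine twoArc hA (rot t x m 1) (a₁ := 0) (n₁ := 0) (b₁ := 0) (a₂ := 2) (n₂ := 2 * m)
            (b₂ := 2 * m) le_rfl le_rfl (by omega) le_rfl (by omega) (hrp 1 (by omega))
            (fun j _ _ => hrT 1 j) (fun j _ hj => ?_) (fun j hj hj' => ?_) (by omega)
          · rw [hr1 1 j (by omega)]
            constructor
            · intro _; omega
            · rintro rfl; exact hNB
          · rw [hr1 1 j (by omega)]
            constructor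
            · intro h'
              by_contra hne
              have := hall (j + 1) (by omega) h'; omega
            · rintro rfl; exact hxN
        · refine twoArc hA (rot t x m 1) (a₁ := 0) (n₁ := A - 1) (b₁ := A - 1) (a₂ := A + 1)
            (n₂ := 2 * m) (b₂ := 2 * m) (by omega) le_rfl (by omega) le_rfl (by omega)
            (hrp 1 (by omega))
            (fun j _ _ => hrT 1 j) (fun j _ hj => ?_) (fun j hj hj' => ?_) (by omega)
          · rw [hr1 1 j (by omega)]
            constructor
            · intro h'; have := hall (j + 1) (by omega) h'; omega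
            · intro h'; rw [show j + 1 = A by omega]; exact hNA
          · rw [hr1 1 j (by omega)]
            constructor
            · intro h'
              by_contra hne
              have := hall (j + 1) (by omega) h'; omega
            · rintro rfl; exact hxN
      · have hk1 : 1 ≤ k := by
          rcases hk with hk | hk
          · exact hk
          · have := hk A B (by omega) (by omega) hNA hNB; omega
        rcases hmid with hmid | ⟨m₁, m₂, hm₁, hm₂, h1, h2, h3, hmid⟩
        · refine twoArc hA (rot t x m 0) (a₁ := 0) (n₁ := A) (b₁ := A) (a₂ := A + 2) (n₂ := B)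
            (b₂ := 2 * m) (by omega) le_rfl (by omega) hBM (by omega) (hrp 0 (by omega))
            (fun j _ _ => hrT 0 j) (fun j _ hj => ?_) (fun j hj hj' => ?_) (by omega)
          · rw [hr1 0 j (by omega)]
            constructor
            · intro h'; have := hall (j + 0) (by omega) h'; omega
            · rintro rfl; exact hNA
          · rw [hr1 0 j (by omega)]
            constructor
            · intro h'
              by_contra hne
              have := hall (j + 0) (by omega) h'
              exact hmid (j + 0) (by omega) (by omega) h'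
            · rintro rfl; exact hNB
        · have cA := c1' A (by omega) hNA
          have cB := c1' B (by omega) hNB
          have c3 := c1' m₁ (by omega) hm₁
          have c4 := c1' m₂ (by omega) hm₂
          have d1 := fun h h' => c2' A B h h' hBM hNA hNB
          have d2 := fun h h' => c2' A m₁ h h' (by omega) hNA hm₁
          have d3 := fun h h' => c2' A m₂ h h' (by omega) hNA hm₂
          have d4 := fun h h' => c2' m₁ m₂ h h' (by omega) hm₁ hm₂
          have d5 := fun h h' => c2' m₁ B h h' (by omega) hm₁ hNB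
          have d6 := fun h h' => c2' m₂ B h h' (by omega) hm₂ hNB
          have key : m₂ = m₁ := by omega
          refine twoArc hA (rot t x m 0) (a₁ := 0) (n₁ := A) (b₁ := m₁ - 1) (a₂ := m₂ + 1)
            (n₂ := B) (b₂ := 2 * m) (by omega) (by omega) (by omega) hBM (by omega)
            (hrp 0 (by omega))
            (fun j _ _ => hrT 0 j) (fun j _ hj => ?_) (fun j hj hj' => ?_) (by omega)
          · rw [hr1 0 j (by omega)]
            constructor
            · intro h'
              have := hall (j + 0) (by omega) h'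
              by_contra hne
              have := hmid (j + 0) (by omega) (by omega) h'
              omega
            · rintro rfl; exact hNA
          · rw [hr1 0 j (by omega)]
            constructor
            · intro h'
              have := hall (j + 0) (by omega) h'
              by_contra hne
              have := hmid (j + 0) (by omega) (by omega) h'
              omega
            · rintro rfl; exact hNB
    · rcases Nat.lt_trichotomy B (A + 1) with h | h | h
      · have hAB' : A = B := by omega
        subst hAB'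
        refine oneArc hA (rot t x m 0) (a := 0) (n := A) (b := 2 * m) (by omega) hBM
          (hrp 0 (by omega)) (fun j _ _ => hrT 0 j) (fun j _ hj => ?_) (by omega)
        rw [hr1 0 j (by omega)]
        constructor
        · intro h'; have := hall (j + 0) (by omega) h'; omega
        · rintro rfl; exact hNA
      · refine oneArc hA (rot t x m (A + 2)) (a := 0) (n := 2 * m) (b := 2 * m) (by omega) le_rfl
          (hrp (A + 2) (by omega)) (fun j _ _ => hrT (A + 2) j) (fun j _ hj => ?_) (by omega)
        by_cases hjj : j + (A + 2) ≤ 2 * m + 1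
        · rw [hr1 (A + 2) j hjj]
          constructor
          · intro h'
            by_cases he : j + (A + 2) = 2 * m + 1
            · rw [he] at h'; exact absurd h' hxN
            · have := hall _ (by omega) h'; omega
          · intro h'; omega
        · rw [hr2 (A + 2) j hjj]
          constructor
          · intro h'
            have := hall _ (by omega) h'; omega
          · intro h'
            rw [show j + (A + 2) - (2 * m + 2) = A by omega]; exact hNA
      · have hk1 : 1 ≤ k := by
          rcases hk with hk | hk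
          · exact hk
          · have := hk A B (by omega) (by omega) hNA hNB; omega
        rcases hmid with hmid | ⟨m₁, m₂, hm₁, hm₂, h1, h2, h3, hmid⟩
        · refine twoArc hA (rot t x m 0) (a₁ := 0) (n₁ := A) (b₁ := A) (a₂ := A + 2) (n₂ := B)
            (b₂ := 2 * m) (by omega) le_rfl (by omega) hBM (by omega) (hrp 0 (by omega))
            (fun j _ _ => hrT 0 j) (fun j _ hj => ?_) (fun j hj hj' => ?_) (by omega)
          · rw [hr1 0 j (by omega)]
            constructor
            · intro h'; have := hall (j + 0) (by omega) h'; omega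
            · rintro rfl; exact hNA
          · rw [hr1 0 j (by omega)]
            constructor
            · intro h'
              by_contra hne
              have := hall (j + 0) (by omega) h'
              exact hmid (j + 0) (by omega) (by omega) h'
            · rintro rfl; exact hNB
        · have cA := c1' A (by omega) hNA
          have cB := c1' B (by omega) hNB
          have c3 := c1' m₁ (by omega) hm₁
          have c4 := c1' m₂ (by omega) hm₂
          have d1 := fun h h' => c2' A B h h' hBM hNA hNB
          have d2 := fun h h' => c2' A m₁ h h' (by omega) hNA hm₁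
          have d3 := fun h h' => c2' A m₂ h h' (by omega) hNA hm₂
          have d4 := fun h h' => c2' m₁ m₂ h h' (by omega) hm₁ hm₂
          have d5 := fun h h' => c2' m₁ B h h' (by omega) hm₁ hNB
          have d6 := fun h h' => c2' m₂ B h h' (by omega) hm₂ hNB
          have key : m₂ ≤ m₁ + 1 := by omega
          by_cases hmm : m₁ = m₂
          · refine twoArc hA (rot t x m 0) (a₁ := 0) (n₁ := A) (b₁ := m₁ - 1) (a₂ := m₂ + 1)
              (n₂ := B) (b₂ := 2 * m) (by omega) (by omega) (by omega) hBM (by omega)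
              (hrp 0 (by omega))
              (fun j _ _ => hrT 0 j) (fun j _ hj => ?_) (fun j hj hj' => ?_) (by omega)
            · rw [hr1 0 j (by omega)]
              constructor
              · intro h'
                have := hall (j + 0) (by omega) h'
                by_contra hne
                have := hmid (j + 0) (by omega) (by omega) h'
                omega
              · rintro rfl; exact hNA
            · rw [hr1 0 j (by omega)]
              constructor
              · intro h'
                have := hall (j + 0) (by omega) h'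
                by_contra hne
                have := hmid (j + 0) (by omega) (by omega) h'
                omega
              · rintro rfl; exact hNB
          · refine twoArc hA (rot t x m (A + 1)) (a₁ := 0) (n₁ := m₁ - A - 1) (b₁ := m₂ - A - 2)
              (a₂ := m₂ - A) (n₂ := B - A - 1) (b₂ := 2 * m) (by omega) (by omega) (by omega)
              (by omega) (by omega) (hrp (A + 1) (by omega))
              (fun j _ _ => hrT (A + 1) j) (fun j _ hj => ?_) (fun j hj hj' => ?_) (by omega)
            · rw [hr1 (A + 1) j (by omega)]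
              constructor
              · intro h'
                have := hmid _ (by omega) (by omega) h'
                omega
              · intro h'
                rw [show j + (A + 1) = m₁ by omega]; exact hm₁
            · by_cases hjj : j + (A + 1) ≤ 2 * m + 1
              · rw [hr1 (A + 1) j hjj]
                constructor
                · intro h'
                  by_cases he : j + (A + 1) = 2 * m + 1
                  · rw [he] at h'; exact absurd h' hxN
                  · have := hall _ (by omega) h'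
                    by_contra hne
                    have := hmid _ (by omega) (by omega) h'
                    omega
                · intro h'
                  rw [show j + (A + 1) = B by omega]; exact hNB
              · rw [hr2 (A + 1) j hjj]
                constructor
                · intro h'
                  have := hall _ (by omega) h'; omega
                · intro h'; omega
  · -- only `x` is a neighbour
    have hxN : N (2 * m + 1) := by
      obtain ⟨j, hj, hj2⟩ := hN
      by_cases h : j ≤ 2 * m
      · exact absurd ⟨j, h, hj2⟩ hT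
      · rw [show 2 * m + 1 = j by omega]; exact hj2
    refine oneArc hA (rot t x m 1) (a := 0) (n := 2 * m) (b := 2 * m) (by omega) le_rfl
      (hrp 1 (by omega)) (fun j _ _ => hrT 1 j) (fun j _ hj => ?_) (by omega)
    rw [hr1 1 j (by omega)]
    constructor
    · intro h'
      by_contra hne
      exact hT ⟨j + 1, by omega, h'⟩
    · rintro rfl; exact hxN

/-! ### The core argument -/

lemma core [Finite V] (hG : G.Connected) (m : ℕ) (hm : 1 ≤ m) (c x : V)
    (hcx : G.dist c x = m + 1) (hz : ∀ z, z ≠ x → G.dist c z ≤ m)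
    (hecc : ∀ v, ∃ w, m + 1 ≤ G.dist v w) (u : V)
    (hu : ∀ a b, G.Adj u a → G.Adj u b → a = b) : HasTree G (2 * m + 2) := by
  classical
  let S1 : V → Set V := fun w => {a | G.Adj c a ∧ G.dist c w = G.dist a w + 1}
  have hS1ne : ∀ w, 1 ≤ G.dist c w → (S1 w).Nonempty := by
    intro w hw
    obtain ⟨p, hp0, hpd, hp1, hp2⟩ := geod0 hG c w
    refine ⟨p 1, ?_, ?_⟩
    · have := hp2 0 (by omega)
      rwa [hp0, zero_add] at this
    · have := (hp1 1 hw).2
      omega
  by_cases hcase : ∃ a ∈ S1 x, ∃ w, m + 1 ≤ G.dist a w ∧ ∃ q1 ∈ S1 w, q1 ∉ S1 x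
  · obtain ⟨a, ha, w, haw, q1, hq1, hq1x⟩ := hcase
    have hax : G.dist a x = m := by have := ha.2; omega
    have hwx : w ≠ x := by rintro rfl; omega
    have hcw' := hz w hwx
    have h1 := hG.dist_triangle (u := a) (v := c) (w := w)
    have h2 : G.dist a c = 1 := dist_eq_one_iff_adj.2 ha.1.symm
    have hcw : G.dist c w = m := by omega
    obtain ⟨p, hp0, hp1, hpd, hpl, hpa, hpa'⟩ := geod1 hG c a x ha.1 ha.2
    obtain ⟨q, hq0, hq1', hqd, hql, hqa, hqa'⟩ := geod1 hG c q1 w hq1.1 hq1.2
    rw [hcx] at hpd hpl hpa hpa'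
    rw [hcw] at hqd hql hqa hqa'
    have hq1d : m + 1 ≤ G.dist q1 x := by
      have h3 := hG.dist_triangle (u := c) (v := q1) (w := x)
      have h4 : G.dist c q1 = 1 := dist_eq_one_iff_adj.2 hq1.1
      by_contra hcon
      exact hq1x ⟨hq1.1, by omega⟩
    have hP : IndPath G p 0 (m + 1) := indPath_of_levels hG c p 0 (m + 1)
      (fun i _ hi => (hpl i hi).1) (fun i _ hi => hpa i hi)
    have hQ : IndPath G q 0 m := indPath_of_levels hG c q 0 m
      (fun i _ hi => (hql i hi).1) (fun i _ hi => hqa i hi)
    have hcross : ∀ i j, 1 ≤ i → i ≤ m + 1 → 1 ≤ j → j ≤ m → ¬ G.Adj (p i) (q j) ∧ p i ≠ q j := by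
      intro i j hi1 hi2 hj1 hj2
      have e1 := hpa' i hi1 hi2
      have e2 := hqa' j hj1 hj2
      have e3 := (hpl i hi2)
      have e4 := (hql j hj2)
      constructor
      · intro hadj
        have f1 := hG.dist_triangle (u := a) (v := p i) (w := w)
        have f2 := hG.dist_triangle (u := p i) (v := q j) (w := w)
        have f3 := hG.dist_triangle (u := q1) (v := q j) (w := x)
        have f4 := hG.dist_triangle (u := q j) (v := p i) (w := x)
        have f5 : G.dist (p i) (q j) = 1 := dist_eq_one_iff_adj.2 hadj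
        have f6 : G.dist (q j) (p i) = 1 := dist_eq_one_iff_adj.2 hadj.symm
        omega
      · intro heq
        have f1 := hG.dist_triangle (u := a) (v := p i) (w := w)
        have f2 : G.dist (p i) w = m - j := by rw [heq]; exact e4.2
        have f3 : i = j := by rw [← e3.1, ← e4.1, heq]
        omega
    have t1 := attach (G := G) (isTree_singleton c) (y := c) (by simp) p (a := 1) (n := 1)
      (b := m + 1) le_rfl (by omega) (hP.mono (by omega) le_rfl) ?_ ?_
    · have t2 := attach (G := G) t1.1 (y := c) (by simp) q (a := 1) (n := 1) (b := m) le_rfl hm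
        (hQ.mono (by omega) le_rfl) ?_ ?_
      · refine ⟨_, t2.1, ?_⟩
        rw [t2.2, t1.2, Finset.card_singleton]
        omega
      · intro j hj1 hj2 hmem
        rw [Finset.mem_union, Finset.mem_image, Finset.mem_singleton] at hmem
        rcases hmem with hmem | ⟨i, hi, hij⟩
        · have := (hql j hj2).1
          rw [hmem, SimpleGraph.dist_self] at this
          omega
        · rw [Finset.mem_Icc] at hi
          exact (hcross i j hi.1 hi.2 hj1 hj2).2 hij
      · intro j hj1 hj2 s hs
        rw [Finset.mem_union, Finset.mem_image, Finset.mem_singleton] at hs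
        rcases hs with hs | ⟨i, hi, rfl⟩
        · rw [hs]
          have e := (hQ j 0 (by omega) hj2 (by omega) (by omega)).2
          rw [hq0] at e
          rw [e]
          simp
        · rw [Finset.mem_Icc] at hi
          constructor
          · intro h
            exact absurd h.symm (hcross i j hi.1 hi.2 hj1 hj2).1
          · rintro ⟨_, h⟩
            have := (hpl i hi.2).1
            rw [h, SimpleGraph.dist_self] at this
            omega
    · intro j hj1 hj2 hmem
      rw [Finset.mem_singleton] at hmem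
      have := (hpl j hj2).1
      rw [hmem, SimpleGraph.dist_self] at this
      omega
    · intro j hj1 hj2 s hs
      rw [Finset.mem_singleton] at hs
      rw [hs]
      have e := (hP j 0 (by omega) hj2 (by omega) (by omega)).2
      rw [hp0] at e
      rw [e]
      simp
  · -- Case 2
    have hc2 : ∀ a ∈ S1 x, ∀ w, m + 1 ≤ G.dist a w → S1 w ⊆ S1 x := by
      intro a ha w hw q hq
      by_contra hcon
      exact hcase ⟨a, ha, w, hw, q, hq, hcon⟩
    have hlev : ∀ a ∈ S1 x, ∀ w, m + 1 ≤ G.dist a w → G.dist c w = m := by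
      intro a ha w haw
      have hax : G.dist a x = m := by have := ha.2; omega
      have hwx : w ≠ x := by rintro rfl; omega
      have hcw' := hz w hwx
      have h1 := hG.dist_triangle (u := a) (v := c) (w := w)
      have h2 : G.dist a c = 1 := dist_eq_one_iff_adj.2 ha.1.symm
      omega
    let W : Set V := {w | G.dist c w = m ∧ S1 w ⊆ S1 x}
    have hWne : W.Nonempty := by
      obtain ⟨a, ha⟩ := hS1ne x (by omega)
      obtain ⟨w, hw⟩ := hecc a
      exact ⟨w, hlev a ha w hw, hc2 a ha w hw⟩
    obtain ⟨w0, hw0W, hw0min⟩ : ∃ w ∈ W, ∀ z ∈ W, (S1 w).ncard ≤ (S1 z).ncard := by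
      have hne : ((fun z => (S1 z).ncard) '' W).Nonempty := hWne.image _
      obtain ⟨w, hw, hw2⟩ := Nat.sInf_mem hne
      refine ⟨w, hw, fun z hz => ?_⟩
      have := Nat.sInf_le (Set.mem_image_of_mem (fun z => (S1 z).ncard) hz)
      simp only at hw2 this
      omega
    obtain ⟨hw0l, hw0s⟩ := hw0W
    obtain ⟨a, ha⟩ := hS1ne w0 (by omega)
    have hax := hw0s ha
    obtain ⟨w', haw'⟩ := hecc a
    have hw'l := hlev a hax w' haw'
    have hw's := hc2 a hax w' haw'
    obtain ⟨q1, hq1, hq1n⟩ : ∃ q1 ∈ S1 w', q1 ∉ S1 w0 := by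
      by_contra hcon
      push Not at hcon
      have hsub : S1 w' ⊂ S1 w0 := by
        refine ⟨fun q hq => hcon q hq, fun hsub => ?_⟩
        have := (hsub ha).2
        omega
      have := Set.ncard_lt_ncard hsub (Set.toFinite _)
      have := hw0min w' ⟨hw'l, hw's⟩
      omega
    obtain ⟨p, hp0, hp1, hpd, hpl, hpa, hpa'⟩ := geod1 hG c a w0 ha.1 ha.2
    obtain ⟨q, hq0, hq1', hqd, hql, hqa, hqa'⟩ := geod1 hG c q1 w' hq1.1 hq1.2
    rw [hw0l] at hpd hpl hpa hpa'
    rw [hw'l] at hqd hql hqa hqa'
    have hq1d : m ≤ G.dist q1 w0 := by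
      have h3 := hG.dist_triangle (u := c) (v := q1) (w := w0)
      have h4 : G.dist c q1 = 1 := dist_eq_one_iff_adj.2 hq1.1
      by_contra hcon
      exact hq1n ⟨hq1.1, by omega⟩
    have hP : IndPath G p 0 m := indPath_of_levels hG c p 0 m
      (fun i _ hi => (hpl i hi).1) (fun i _ hi => hpa i hi)
    have hQ : IndPath G q 0 m := indPath_of_levels hG c q 0 m
      (fun i _ hi => (hql i hi).1) (fun i _ hi => hqa i hi)
    have hcross : ∀ i j, 1 ≤ i → i ≤ m → 1 ≤ j → j ≤ m → ¬ G.Adj (p i) (q j) ∧ p i ≠ q j := by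
      intro i j hi1 hi2 hj1 hj2
      have e1 := hpa' i hi1 hi2
      have e2 := hqa' j hj1 hj2
      have e3 := (hpl i hi2)
      have e4 := (hql j hj2)
      constructor
      · intro hadj
        have f1 := hG.dist_triangle (u := a) (v := p i) (w := w')
        have f2 := hG.dist_triangle (u := p i) (v := q j) (w := w')
        have f3 := hG.dist_triangle (u := q1) (v := q j) (w := w0)
        have f4 := hG.dist_triangle (u := q j) (v := p i) (w := w0)
        have f5 : G.dist (p i) (q j) = 1 := dist_eq_one_iff_adj.2 hadj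
        have f6 : G.dist (q j) (p i) = 1 := dist_eq_one_iff_adj.2 hadj.symm
        omega
      · intro heq
        have f1 := hG.dist_triangle (u := a) (v := p i) (w := w')
        have f2 : G.dist (p i) w' = m - j := by rw [heq]; exact e4.2
        have f3 : i = j := by rw [← e3.1, ← e4.1, heq]
        omega
    set t : ℕ → V := fun j => if j ≤ m then q (m - j) else p (j - m) with htdef
    have ht1 : ∀ j ≤ m, t j = q (m - j) := fun j hj => by simp only [htdef, if_pos hj]
    have ht2 : ∀ j, m ≤ j → t j = p (j - m) := by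
      intro j hj
      rcases Nat.eq_or_lt_of_le hj with h | h
      · subst h
        rw [ht1 m le_rfl, Nat.sub_self, hq0, hp0]
      · simp only [htdef, if_neg (by omega : ¬ j ≤ m)]
    have htl1 : ∀ j ≤ m, G.dist c (t j) = m - j := fun j hj => by
      rw [ht1 j hj]; exact (hql _ (by omega)).1
    have htl2 : ∀ j, m ≤ j → j ≤ 2 * m → G.dist c (t j) = j - m := fun j hj hj2 => by
      rw [ht2 j hj]; exact (hpl _ (by omega)).1
    have hnadj : ∀ i j, i < m → m < j → j ≤ 2 * m → ¬ G.Adj (t i) (t j) ∧ t i ≠ t j := by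
      intro i j hi hj hj2
      rw [ht1 i (by omega), ht2 j (by omega)]
      have := hcross (j - m) (m - i) (by omega) (by omega) (by omega) (by omega)
      exact ⟨fun h => this.1 h.symm, fun h => this.2 h.symm⟩
    have ht : IndPath G t 0 (2 * m) := by
      intro i j _ hi _ hj
      rcases Nat.lt_or_ge i m with h1 | h1 <;> rcases Nat.lt_or_ge j m with h2 | h2
      · rw [ht1 i (by omega), ht1 j (by omega)]
        obtain ⟨e1, e2⟩ := hQ (m - i) (m - j) (by omega) (by omega) (by omega) (by omega)
        exact ⟨fun h => by have := e1 h; omega, by rw [e2]; omega⟩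
      · rcases Nat.eq_or_lt_of_le h2 with h3 | h3
        · subst h3
          rw [ht1 i (by omega), ht1 m le_rfl]
          obtain ⟨e1, e2⟩ := hQ (m - i) (m - m) (by omega) (by omega) (by omega) (by omega)
          exact ⟨fun h => by have := e1 h; omega, by rw [e2]; omega⟩
        · obtain ⟨e1, e2⟩ := hnadj i j h1 h3 hj
          exact ⟨fun h => absurd h e2, ⟨fun h => absurd h e1, fun h => by omega⟩⟩
      · rcases Nat.eq_or_lt_of_le h1 with h3 | h3
        · subst h3
          rw [ht1 j (by omega), ht1 m le_rfl]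
          obtain ⟨e1, e2⟩ := hQ (m - m) (m - j) (by omega) (by omega) (by omega) (by omega)
          exact ⟨fun h => by have := e1 h; omega, by rw [e2]; omega⟩
        · obtain ⟨e1, e2⟩ := hnadj j i h2 h3 hi
          exact ⟨fun h => absurd h.symm e2, ⟨fun h => absurd h.symm e1, fun h => by omega⟩⟩
      · rw [ht2 i h1, ht2 j h2]
        obtain ⟨e1, e2⟩ := hP (i - m) (j - m) (by omega) (by omega) (by omega) (by omega)
        exact ⟨fun h => by have := e1 h; omega, by rw [e2]; omega⟩
    have hcons : ∀ y : V, Cons (fun j => G.Adj y (t j)) m (G.dist c y) := by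
      intro y
      constructor
      · intro j hj hadj
        have h1 := adj_dist hG c hadj
        rcases Nat.le_total j m with h2 | h2
        · rw [htl1 j h2] at h1; omega
        · rw [htl2 j h2 hj] at h1; omega
      · intro i j hi hj hj2 hyi hyj
        rw [ht1 i (by omega)] at hyi
        rw [ht2 j (by omega)] at hyj
        have e1 := hpa' (j - m) (by omega) (by omega)
        have e2 := hqa' (m - i) (by omega) (by omega)
        have e3 := (hpl (j - m) (by omega)).2
        have e4 := (hql (m - i) (by omega)).2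
        have f1 := hG.dist_triangle (u := a) (v := p (j - m)) (w := w')
        have f2 := hG.dist_triangle (u := p (j - m)) (v := y) (w := w')
        have f3 := hG.dist_triangle (u := y) (v := q (m - i)) (w := w')
        have f4 := hG.dist_triangle (u := q1) (v := q (m - i)) (w := w0)
        have f5 := hG.dist_triangle (u := q (m - i)) (v := y) (w := w0)
        have f6 := hG.dist_triangle (u := y) (v := p (j - m)) (w := w0)
        have g1 : G.dist (p (j - m)) y = 1 := dist_eq_one_iff_adj.2 hyj.symm
        have g2 : G.dist y (q (m - i)) = 1 := dist_eq_one_iff_adj.2 hyi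
        have g3 : G.dist (q (m - i)) y = 1 := dist_eq_one_iff_adj.2 hyi.symm
        have g4 : G.dist y (p (j - m)) = 1 := dist_eq_one_iff_adj.2 hyj
        omega
    have hxt : ∀ j ≤ 2 * m, t j ≠ x := by
      intro j hj h
      rcases Nat.le_total j m with h2 | h2
      · have := htl1 j h2; rw [h, hcx] at this; omega
      · have := htl2 j h2 hj; rw [h, hcx] at this; omega
    have hxadj : ∀ j ≤ 2 * m, G.Adj x (t j) → j = 0 ∨ j = 2 * m := by
      intro j hj h
      have h1 := adj_dist hG c h
      rw [hcx] at h1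
      rcases Nat.le_total j m with h2 | h2
      · rw [htl1 j h2] at h1; omega
      · rw [htl2 j h2 hj] at h1; omega
    let T : Set V := {v | ∃ j ≤ 2 * m, v = t j}
    have htT : ∀ j ≤ 2 * m, t j ∈ T := fun j hj => ⟨j, hj, rfl⟩
    have hxT : x ∉ T := fun ⟨j, hj, h⟩ => hxt j hj h.symm
    by_cases e0 : G.Adj x (t 0)
    · by_cases e1 : G.Adj x (t (2 * m))
      · -- cycle case
        have hxa : ∀ j ≤ 2 * m, (G.Adj x (t j) ↔ (j = 0 ∨ j = 2 * m)) := by
          intro j hj
          refine ⟨hxadj j hj, ?_⟩
          rintro (rfl | rfl)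
          exacts [e0, e1]
        have hcs := cyc_spec hm ht hxt hxa
        let T' : Set V := insert x T
        have hT'c : ∀ v ∈ T', ∃ i ≤ 2 * m + 1, v = cyc t x m i := by
          rintro v (rfl | ⟨j, hj, rfl⟩)
          · exact ⟨2 * m + 1, le_rfl, by unfold cyc; rw [if_neg (by omega)]⟩
          · exact ⟨j, by omega, by unfold cyc; rw [if_pos hj]⟩
        have hcT' : ∀ i, cyc t x m i ∈ T' := by
          intro i; unfold cyc; split_ifs with h
          exacts [Or.inr (htT i h), Or.inl rfl]
        have huT' : u ∉ T' := by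
          intro h
          obtain ⟨i, hi, rfl⟩ := hT'c u h
          have ha1 : ∃ a b, a ≤ 2 * m + 1 ∧ b ≤ 2 * m + 1 ∧ a ≠ b ∧
              G.Adj (cyc t x m i) (cyc t x m a) ∧ G.Adj (cyc t x m i) (cyc t x m b) := by
            by_cases hi0 : i = 0
            · refine ⟨1, 2 * m + 1, by omega, le_rfl, by omega, ?_, ?_⟩
              · rw [(hcs i 1 hi (by omega)).2]; omega
              · rw [(hcs i (2 * m + 1) hi le_rfl).2]; omega
            · by_cases hi1 : i = 2 * m + 1
              · refine ⟨0, 2 * m, by omega, by omega, by omega, ?_, ?_⟩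
                · rw [(hcs i 0 hi (by omega)).2]; omega
                · rw [(hcs i (2 * m) hi (by omega)).2]; omega
              · refine ⟨i - 1, i + 1, by omega, by omega, by omega, ?_, ?_⟩
                · rw [(hcs i (i - 1) hi (by omega)).2]; omega
                · rw [(hcs i (i + 1) hi (by omega)).2]; omega
          obtain ⟨a', b', ha', hb', hab, h1, h2⟩ := ha1
          exact hab ((hcs a' b' ha' hb').1 (hu _ _ h1 h2))
        obtain ⟨g, k, hgk, hgi, hgn, ⟨s, hsT, hgs⟩, hga, hkd⟩ :=
          approach hG T' u huT' ⟨x, Or.inl rfl⟩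
        obtain ⟨i, hi, rfl⟩ := hT'c s hsT
        refine cycleCase (T := T') ⟨hgi, hgn, hga⟩ t x m (G.dist c (g 0)) hm ht
          (fun j hj => Or.inr (htT j hj)) (Or.inl rfl) hxt hxa ⟨i, hi, hgs⟩ (hcons (g 0)) ?_ ?_
        · intro h
          have := adj_dist hG c h
          rw [hcx] at this; omega
        · rcases Nat.eq_zero_or_pos k with hk | hk
          · right
            subst hk
            intro i j hi hj h1 h2
            rw [hgk] at h1 h2
            exact (hcs i j hi hj).1 (hu _ _ h1 h2)
          · left; exact hk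
      · -- x adjacent only to `t 0`
        have h1 := attach (G := G) (isTree_singleton x) (y := x) (by simp) t (a := 0) (n := 0)
          (b := 2 * m) le_rfl (by omega) ht
          (fun j _ hj h => hxt j hj (Finset.mem_singleton.1 h)) ?_
        · exact ⟨_, h1.1, by rw [h1.2, Finset.card_singleton]; omega⟩
        · intro j _ hj s hs
          rw [Finset.mem_singleton] at hs
          subst hs
          constructor
          · intro h
            rcases hxadj j hj h.symm with rfl | rfl
            · exact ⟨rfl, rfl⟩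
            · exact absurd h.symm e1
          · rintro ⟨rfl, _⟩; exact e0.symm
    · by_cases e1 : G.Adj x (t (2 * m))
      · have h1 := attach (G := G) (isTree_singleton x) (y := x) (by simp) t (a := 0) (n := 2 * m)
          (b := 2 * m) (by omega) le_rfl ht
          (fun j _ hj h => hxt j hj (Finset.mem_singleton.1 h)) ?_
        · exact ⟨_, h1.1, by rw [h1.2, Finset.card_singleton]; omega⟩
        · intro j _ hj s hs
          rw [Finset.mem_singleton] at hs
          subst hs
          constructor
          · intro h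
            rcases hxadj j hj h.symm with rfl | rfl
            · exact absurd h.symm e0
            · exact ⟨rfl, rfl⟩
          · rintro ⟨rfl, _⟩; exact e1.symm
      · -- x has no neighbour on the path
        obtain ⟨g, k, hgk, hgi, hgn, ⟨s, hsT, hgs⟩, hga, hkd⟩ :=
          approach hG T x hxT ⟨t 0, htT 0 (by omega)⟩
        obtain ⟨i, hi, rfl⟩ := hsT
        refine pathCase (T := T) ⟨hgi, hgn, hga⟩ t m (G.dist c (g 0)) ht htT ⟨i, hi, hgs⟩
          (hcons (g 0)) ?_ ?_
        · by_contra hk
          have hk0 : k = 0 := by omega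
          subst hk0
          rw [hgk] at hgs
          rcases hxadj i hi hgs with rfl | rfl
          exacts [e0 hgs, e1 hgs]
        · have := hG.dist_triangle (u := c) (v := g 0) (w := x)
          omega

/-! ### Induction and the final result -/

/-- the induced subgraph on the image of `S` -/
noncomputable def inducedIso (G : SimpleGraph V) (s : Set V) (S : Set s) :
    (G.induce s).induce S ≃g G.induce (Subtype.val '' S) where
  toEquiv := Equiv.Set.image Subtype.val S Subtype.val_injective
  map_rel_iff' := by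
    intro a b
    rfl

lemma hasTree_of_induce {s : Set V} {n : ℕ} (h : HasTree (G.induce s) n) : HasTree G n := by
  classical
  obtain ⟨S, hS, hcard⟩ := h
  refine ⟨S.map (Function.Embedding.subtype _), ?_, by rwa [Finset.card_map]⟩
  have h1 := (inducedIso G s (S : Set s)).isTree_iff.1 hS
  have h2 : ((S.map (Function.Embedding.subtype _) : Finset V) : Set V)
      = Subtype.val '' (S : Set s) := by
    ext v; simp
  rw [h2]
  exact h1

lemma leafCase (m : ℕ) (hm : 1 ≤ m) : ∀ n : ℕ, ∀ (V : Type u) [Finite V] (G : SimpleGraph V),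
    Nat.card V = n → G.Connected → (∀ v, ∃ w, m + 1 ≤ G.dist v w) →
    (∃ u, ∀ a b, G.Adj u a → G.Adj u b → a = b) → HasTree G (2 * m + 2) := by
  intro n
  induction n using Nat.strong_induction_on with
  | _ n ih =>
    intro V _ G hn hG hecc hleaf
    obtain ⟨u, hu⟩ := hleaf
    have : Nonempty V := ⟨u⟩
    -- x farthest from u
    obtain ⟨x, hx⟩ : ∃ x, ∀ z, G.dist u z ≤ G.dist u x := Finite.exists_max (fun z => G.dist u z)
    obtain ⟨w0, hw0⟩ := hecc u
    have hux : 2 ≤ G.dist u x := by have := hx w0; omega
    have hxu : u ≠ x := by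
      rintro rfl
      rw [SimpleGraph.dist_self] at hux; omega
    let s : Set V := {v | v ≠ x}
    let G' : SimpleGraph s := G.induce s
    have hreach : ∀ d, ∀ z : s, G.dist u z.1 = d → G'.Reachable ⟨u, hxu⟩ z := by
      intro d
      induction d with
      | zero =>
        intro z hz
        have : u = z.1 := (hG.dist_eq_zero_iff).1 hz
        have : z = ⟨u, hxu⟩ := Subtype.ext this.symm
        rw [this]
      | succ d ihd =>
        intro z hz
        obtain ⟨p, hp0, hpd, hpl, hpa⟩ := geod0 hG u z.1
        rw [hz] at hpd hpl hpa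
        have h1 := (hpl d (by omega)).1
        have hne : p d ≠ x := by
          intro h
          have := hx z.1
          rw [← h, h1, hz] at this
          omega
        have h2 := ihd ⟨p d, hne⟩ h1
        refine h2.trans ?_
        have hadj : G.Adj (p d) z.1 := by
          have := hpa d (by omega)
          rwa [hpd] at this
        exact SimpleGraph.Adj.reachable (show G'.Adj ⟨p d, hne⟩ z from hadj)
    have hG' : G'.Connected := by
      rw [connected_iff_exists_forall_reachable]
      exact ⟨⟨u, hxu⟩, fun z => hreach _ z rfl⟩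
    by_cases hall : ∀ v : s, ∃ w : s, m + 1 ≤ G'.dist v w
    · have hlt : Nat.card s < n := by
        rw [← hn]
        have hss : s ⊂ Set.univ := ⟨fun _ _ => trivial, fun h => (h (Set.mem_univ x)) rfl⟩
        have := Set.ncard_lt_ncard hss (Set.toFinite _)
        rwa [Set.ncard_univ, ← Nat.card_coe_set_eq] at this
      refine hasTree_of_induce (s := s) (ih _ hlt s G' rfl hG' hall ⟨⟨u, hxu⟩, ?_⟩)
      intro a b ha hb
      exact Subtype.ext (hu a.1 b.1 ha hb)
    · push Not at hall
      obtain ⟨c, hc⟩ := hall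
      have hz : ∀ z, z ≠ x → G.dist c.1 z ≤ m := by
        intro z hzx
        have h1 := hc ⟨z, hzx⟩
        obtain ⟨W, hW⟩ := hG'.exists_walk_length_eq_dist c ⟨z, hzx⟩
        have h2 := dist_le (W.map (Embedding.induce s : G' ↪g G).toHom)
        rw [Walk.length_map, hW] at h2
        change G.dist c.1 z ≤ _ at h2
        omega
      have hcx : G.dist c.1 x = m + 1 := by
        obtain ⟨w, hw⟩ := hecc c.1
        have hwx : w = x := by
          by_contra hne
          have := hz w hne; omega
        rw [hwx] at hw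
        obtain ⟨p, hp0, hpd, hpl, hpa⟩ := geod0 hG c.1 x
        have h1 := hpl (G.dist c.1 x - 1) (by omega)
        have hne : p (G.dist c.1 x - 1) ≠ x := by
          intro h
          rw [h] at h1
          omega
        have := hz _ hne
        omega
      exact core hG m hm c.1 x hcx hz hecc u hu

lemma geodTree [Finite V] (hG : G.Connected) (c w : V) : HasTree G (G.dist c w + 1) := by
  classical
  obtain ⟨p, hp0, hpd, hpl, hpa⟩ := geod0 hG c w
  have h := yTree (G := G) (indPath_of_levels hG c p 0 (G.dist c w) (fun i _ hi => (hpl i hi).1)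
    (fun i _ hi => hpa i hi))
  exact ⟨_, h.1, by rw [h.2]⟩

/-- the largest number of vertices of an induced subtree -/
noncomputable def treeNumber (G : SimpleGraph V) : ℕ :=
  sSup {n | ∃ S : Finset V, (G.induce (S : Set V)).IsTree ∧ S.card = n}

lemma le_treeNumber [Finite V] {n : ℕ} (h : HasTree G n) : n ≤ treeNumber G := by
  obtain ⟨S, hS, hn⟩ := h
  refine hn.trans (le_csSup ?_ ⟨S, hS, rfl⟩)
  have := Fintype.ofFinite V
  refine ⟨Fintype.card V, ?_⟩
  rintro m ⟨S, _, rfl⟩
  exact Finset.card_le_univ S

/-- **Q1**: `tree(G) ≥ 2 rad(G) / δ(G)` for every finite connected graph. -/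
theorem result (V : Type u) [Fintype V] [Nontrivial V] (G : SimpleGraph V) [DecidableRel G.Adj]
    (hG : G.Connected) :
    (2 * (G.radius.toNat : ℝ)) / (G.minDegree : ℝ) ≤ (treeNumber G : ℝ) := by
  set r := G.radius.toNat with hr
  have hfin : G.radius ≠ ⊤ := radius_ne_top_iff.2 hG
  have hrr : G.radius = (r : ℕ∞) := (ENat.natCast_toNat hfin).symm
  have hecc : ∀ v, ∃ w, r ≤ G.dist v w := by
    intro v
    obtain ⟨w, hw⟩ := G.exists_edist_eq_eccent_of_finite v
    refine ⟨w, ?_⟩
    have h1 : G.radius ≤ G.edist v w := by rw [hw]; exact radius_le_eccent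
    rw [hrr, ← (hG v w).coe_dist_eq_edist] at h1
    exact_mod_cast h1
  obtain ⟨v0⟩ : Nonempty V := inferInstance
  obtain ⟨w0, hw0⟩ := hecc v0
  have hbase : r + 1 ≤ treeNumber G := (by omega : r + 1 ≤ G.dist v0 w0 + 1).trans
    (le_treeNumber (geodTree hG v0 w0))
  rcases Nat.lt_trichotomy G.minDegree 1 with h | h | h
  · have : G.minDegree = 0 := by omega
    rw [this]; simp
  · rw [h]
    simp only [Nat.cast_one, div_one]
    have key : 2 * r ≤ treeNumber G := by
      by_cases hr1 : r ≤ 1
      · omega
      · obtain ⟨u, hu⟩ := G.exists_minimal_degree_vertex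
        have hleaf : ∀ a b, G.Adj u a → G.Adj u b → a = b := by
          intro a b ha hb
          rw [h] at hu
          have hc : (G.neighborFinset u).card ≤ 1 := by rw [card_neighborFinset_eq_degree]; omega
          exact Finset.card_le_one.1 hc a (by simpa using ha) b (by simpa using hb)
        have := leafCase (r - 1) (by omega) (Nat.card V) V G rfl hG
          (fun v => by obtain ⟨w, hw⟩ := hecc v; exact ⟨w, by omega⟩) ⟨u, hleaf⟩
        have h2 := le_treeNumber this
        omega
    exact_mod_cast key
  · have hd : (2 : ℝ) ≤ G.minDegree := by exact_mod_cast h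
    rw [div_le_iff₀ (by linarith)]
    have h1 : (r : ℝ) + 1 ≤ treeNumber G := by exact_mod_cast hbase
    have h2 : (0 : ℝ) ≤ r := Nat.cast_nonneg r
    nlinarith

end Pool.Agent.Results.MP_40785c_co.TreeRadius
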